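import Mathlib
import Pool.Agent.H5.MGHilb
import Pool.Agent.H5.Smooth

set_option autoImplicit false

namespace Pool.Agent.Results.MP_5fb40f_ag.Neither

open MvPolynomial Pool.Agent.H5.Smooth Pool.Agent.H5.MGHilb

universe u

/-- The maximal ideal of the point `v` of `𝔸ⁿ`. -/
noncomputable def maxI {k : Type u} [Field k] {n : ℕ} (v : Fin n → k) :
    Ideal (MvPolynomial (Fin n) k) :=
  Ideal.span (Set.range fun i => X i - C (v i))

/-- The very compressed locus `VC_{n,d}` of `Hilb_d(𝔸ⁿ)`. -/
def VC (k : Type u) [Field k] (n d : ℕ) : Set (Ideal (MvPolynomial (Fin n) k)) :=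
  {I | ∃ (s : ℕ) (v : Fin n → k), (n + s - 1).choose n < d ∧ d ≤ (n + s).choose n ∧
    maxI v ^ (s + 1) ≤ I ∧ I ≤ maxI v ^ s ∧ deg I = d}

section translate

variable {k : Type u} [Field k] {n : ℕ}

noncomputable def T (v : Fin n → k) : MvPolynomial (Fin n) k →ₐ[k] MvPolynomial (Fin n) k :=
  aeval (fun i => X i + C (v i))

lemma T_X (v : Fin n → k) (i : Fin n) : T v (X i) = X i + C (v i) := aeval_X _ _

lemma T_C (v : Fin n → k) (a : k) : T v (C a) = C a := (T v).commutes a

lemma T_T (v : Fin n → k) (f : MvPolynomial (Fin n) k) : T (-v) (T v f) = f := by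
  have h : (T (-v)).comp (T v) = AlgHom.id k _ := by
    apply MvPolynomial.algHom_ext
    intro i
    rw [AlgHom.comp_apply, T_X, map_add, T_X, T_C, Pi.neg_apply, C_neg, neg_add_cancel_right]
    rfl
  exact DFunLike.congr_fun h f

lemma T_maxI (v : Fin n → k) (j : ℕ) (f : MvPolynomial (Fin n) k) (hf : f ∈ maxI v ^ j) :
    T v f ∈ idealOfVars (Fin n) k ^ j := by
  have h1 : (maxI v).map (T v).toRingHom ≤ idealOfVars (Fin n) k := by
    rw [maxI, Ideal.map_span, Ideal.span_le]
    rintro _ ⟨_, ⟨i, rfl⟩, rfl⟩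
    change T v (X i - C (v i)) ∈ _
    rw [map_sub, T_X, T_C, add_sub_cancel_right]
    exact Ideal.subset_span ⟨i, rfl⟩
  have h2 : T v f ∈ (maxI v ^ j).map (T v).toRingHom := Ideal.mem_map_of_mem _ hf
  rw [Ideal.map_pow] at h2
  exact Ideal.pow_right_mono h1 j h2

lemma maxI_of (v : Fin n → k) (j : ℕ) (f : MvPolynomial (Fin n) k)
    (hf : T v f ∈ idealOfVars (Fin n) k ^ j) : f ∈ maxI v ^ j := by
  have h1 : (idealOfVars (Fin n) k).map (T (-v)).toRingHom ≤ maxI v := by
    rw [idealOfVars, Ideal.map_span, Ideal.span_le]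
    rintro _ ⟨_, ⟨i, rfl⟩, rfl⟩
    change T (-v) (X i) ∈ _
    rw [T_X, Pi.neg_apply, C_neg, ← sub_eq_add_neg]
    exact Ideal.subset_span ⟨i, rfl⟩
  have h2 : T (-v) (T v f) ∈ (idealOfVars (Fin n) k ^ j).map (T (-v)).toRingHom :=
    Ideal.mem_map_of_mem _ hf
  rw [Ideal.map_pow, T_T] at h2
  exact Ideal.pow_right_mono h1 j h2

lemma maxI_zero : maxI (0 : Fin n → k) = idealOfVars (Fin n) k := by
  rw [maxI, idealOfVars]
  congr 2
  funext i
  simp

lemma mem_maxI (v : Fin n → k) (i : Fin n) : (X i - C (v i) : MvPolynomial (Fin n) k) ∈ maxI v :=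
  Ideal.subset_span ⟨i, rfl⟩

/-- coefficients at the point `v`. -/
noncomputable def cf (v : Fin n → k) (s : Fin n →₀ ℕ) : MvPolynomial (Fin n) k →ₗ[k] k :=
  (lcoeff k s) ∘ₗ (T v).toLinearMap

lemma cf_apply (v : Fin n → k) (s : Fin n →₀ ℕ) (f : MvPolynomial (Fin n) k) :
    cf v s f = coeff s (T v f) := rfl

/-- all coefficients of degree at most two at the point `v`. -/
noncomputable def G (v : Fin n → k) : MvPolynomial (Fin n) k →ₗ[k] (k × (Fin n → k) × (Q n → k)) :=
  (cf v 0).prod ((LinearMap.pi (fun a => cf v (Finsupp.single a 1))).prod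
    (LinearMap.pi (fun q => cf v (quad q))))

lemma G_ker (v : Fin n → k) (f : MvPolynomial (Fin n) k) (hf : G v f = 0) : f ∈ maxI v ^ 3 := by
  apply maxI_of
  rw [mem_pow_idealOfVars_iff']
  intro s hs
  rcases degree_zero_one_two s (by omega) with rfl | ⟨a, rfl⟩ | ⟨q, rfl⟩
  · exact congrArg Prod.fst hf
  · exact congrFun (congrArg (fun x => x.2.1) hf) a
  · exact congrFun (congrArg (fun x => x.2.2) hf) q

end translate

section counts

variable {k : Type u} [Field k] {n : ℕ}

lemma fin_of_ker {V : Type u} [AddCommGroup V] [Module k V] [Module.Finite k V]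
    (g : MvPolynomial (Fin n) k →ₗ[k] V) (I : Ideal (MvPolynomial (Fin n) k))
    (h : ∀ f, g f = 0 → f ∈ I) : deg I ≤ Module.finrank k V := by
  let e := g.quotKerEquivRange
  let π : (MvPolynomial (Fin n) k ⧸ LinearMap.ker g) →ₗ[k] (MvPolynomial (Fin n) k ⧸ I) :=
    (LinearMap.ker g).liftQ (Ideal.Quotient.mkₐ k I).toLinearMap (by
      intro f hf
      exact Ideal.Quotient.eq_zero_iff_mem.2 (h f hf))
  have hπ : Function.Surjective π := by
    intro a
    obtain ⟨f, rfl⟩ := Ideal.Quotient.mk_surjective a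
    exact ⟨Submodule.Quotient.mk f, rfl⟩
  have h1 : Module.Finite k (MvPolynomial (Fin n) k ⧸ LinearMap.ker g) := Module.Finite.equiv e.symm
  have h2 := LinearMap.finrank_le_finrank_of_surjective hπ
  rw [e.finrank_eq] at h2
  exact h2.trans (Submodule.finrank_le _)

/-- exponent of a squarefree monomial. -/
noncomputable def sq (τ : Finset (Fin n)) : Fin n →₀ ℕ := ∑ a ∈ τ, Finsupp.single a 1

lemma sq_inj : Function.Injective (sq (n := n)) := by
  intro τ τ' h
  ext a
  have h1 : ∀ τ : Finset (Fin n), sq τ a = if a ∈ τ then 1 else 0 := by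
    intro τ
    rw [sq, Finsupp.finsetSum_apply]
    simp [Finsupp.single_apply]
  have h2 : sq τ a = sq τ' a := by rw [h]
  rw [h1, h1] at h2
  by_cases ha : a ∈ τ <;> by_cases ha' : a ∈ τ' <;> simp_all

lemma prod_X (τ : Finset (Fin n)) : (∏ a ∈ τ, X a : MvPolynomial (Fin n) k) = monomial (sq τ) 1 := by
  rw [sq, monomial_sum_one]
  rfl

/-- the squarefree cubic coefficients at the point `v`. -/
noncomputable def ph (v : Fin n → k) :
    MvPolynomial (Fin n) k →ₗ[k] ({τ : Finset (Fin n) // τ.card = 3} → k) :=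
  LinearMap.pi (fun τ => cf v (sq τ.1))

lemma sq_degree (τ : Finset (Fin n)) : Finsupp.degree (sq τ) = τ.card := by
  rw [sq, map_sum, Finset.sum_congr rfl (fun a _ => Finsupp.degree_single a 1)]
  simp

lemma ph_of_mem (v : Fin n → k) (f : MvPolynomial (Fin n) k) (hf : f ∈ maxI v ^ 4) : ph v f = 0 := by
  funext τ
  have h1 := T_maxI v 4 f hf
  rw [mem_pow_idealOfVars_iff'] at h1
  exact h1 _ (by rw [sq_degree, τ.2]; norm_num)

lemma ph_prod (v : Fin n → k) (τ : {τ : Finset (Fin n) // τ.card = 3}) :
    (∏ a ∈ τ.1, (X a - C (v a)) : MvPolynomial (Fin n) k) ∈ maxI v ^ 3 ∧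
      ph v (∏ a ∈ τ.1, (X a - C (v a))) = Pi.single τ 1 := by
  have h1 : T v (∏ a ∈ τ.1, (X a - C (v a))) = monomial (sq τ.1) 1 := by
    rw [map_prod, ← prod_X]
    refine Finset.prod_congr rfl (fun a _ => ?_)
    rw [map_sub, T_X, T_C, add_sub_cancel_right]
  constructor
  · apply maxI_of
    rw [h1]
    exact (monomial_mem_pow_idealOfVars_iff 3 _ one_ne_zero).2 (by rw [sq_degree, τ.2])
  · funext τ'
    change coeff (sq τ'.1) (T v (∏ a ∈ τ.1, (X a - C (v a)))) = _
    rw [h1, coeff_monomial]
    by_cases h : τ = τ'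
    · subst h; simp
    · rw [if_neg (fun h' => h (Subtype.ext (sq_inj h'))), Pi.single_eq_of_ne (Ne.symm h)]

lemma exists_lambda (v : Fin n → k) (I : Ideal (MvPolynomial (Fin n) k)) (h3 : maxI v ^ 3 ≤ I)
    (hnum : n * (1 + n + Fintype.card (Q n) - deg I) < n.choose 3) :
    ∃ l : MvPolynomial (Fin n) k →ₗ[k] k, (∀ f ∈ I, ∀ i, l ((X i - C (v i)) * f) = 0) ∧
      ∃ z ∈ maxI v ^ 3, l z ≠ 0 := by
  classical
  let N : Submodule k (MvPolynomial (Fin n) k) :=
    Submodule.span k {g | ∃ (i : Fin n) (f : MvPolynomial (Fin n) k), f ∈ I ∧ g = (X i - C (v i)) * f}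
  by_cases hN : ∀ z ∈ maxI v ^ 3, z ∈ N
  · exfalso
    -- the image of `I` under `G`
    let GI : Submodule k (k × (Fin n → k) × (Q n → k)) := (I.restrictScalars k).map (G v)
    have hd : deg I + Module.finrank k GI ≤ 1 + n + Fintype.card (Q n) := by
      have h1 := fin_of_ker (GI.mkQ ∘ₗ G v) I (by
        intro f hf
        have h2 : G v f ∈ GI := (Submodule.Quotient.mk_eq_zero _).1 hf
        obtain ⟨g, hg, hgf⟩ := h2
        have h4 : G v (f - g) = 0 := by rw [map_sub, hgf, sub_self]
        have h5 := h3 (G_ker v _ h4)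
        have h6 : f = (f - g) + g := by ring
        rw [h6]
        exact I.add_mem h5 hg)
      have h2 := Submodule.finrank_quotient_add_finrank GI
      rw [Module.finrank_prod, Module.finrank_prod, Module.finrank_self,
        Module.finrank_fintype_fun_eq_card, Module.finrank_fintype_fun_eq_card, Fintype.card_fin] at h2
      omega
    let bas := Module.finBasis k GI
    have hw : ∀ j, ∃ w ∈ I, G v w = bas j := by
      intro j
      obtain ⟨w, hw, hw'⟩ := (bas j).2
      exact ⟨w, hw, hw'⟩
    choose w hwI hwG using hw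
    let Θ : (Fin n × Fin (Module.finrank k GI) → k) →ₗ[k] ({τ : Finset (Fin n) // τ.card = 3} → k) :=
      Fintype.linearCombination k (fun ij => ph v ((X ij.1 - C (v ij.1)) * w ij.2))
    have hrange : ∀ g ∈ N, ph v g ∈ LinearMap.range Θ := by
      intro g hg
      induction hg using Submodule.span_induction with
      | mem x hx =>
        obtain ⟨i, f, hf, rfl⟩ := hx
        have h5 : G v f ∈ GI := ⟨f, hf, rfl⟩
        let c := bas.repr ⟨G v f, h5⟩
        have h6 : G v (f - ∑ j, c j • w j) = 0 := by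
          rw [map_sub, map_sum, sub_eq_zero]
          have h7 := congrArg Subtype.val (bas.sum_repr ⟨G v f, h5⟩)
          refine h7.symm.trans ?_
          rw [Submodule.coe_sum]
          refine Finset.sum_congr rfl (fun j _ => ?_)
          rw [map_smul, hwG]
          rfl
        have h8 := G_ker v _ h6
        have h9 : ph v ((X i - C (v i)) * (f - ∑ j, c j • w j)) = 0 := by
          apply ph_of_mem
          rw [pow_succ' (maxI v) 3]
          exact Ideal.mul_mem_mul (mem_maxI v i) h8
        have h10 : ph v ((X i - C (v i)) * f) = ∑ j, c j • ph v ((X i - C (v i)) * w j) := by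
          rw [mul_sub, map_sub, sub_eq_zero] at h9
          rw [h9, Finset.mul_sum, map_sum]
          refine Finset.sum_congr rfl (fun j _ => ?_)
          rw [mul_smul_comm, map_smul]
        rw [h10]
        refine Submodule.sum_mem _ (fun j _ => Submodule.smul_mem _ _ ?_)
        refine ⟨Pi.single (i, j) 1, ?_⟩
        rw [Fintype.linearCombination_apply_single, one_smul]
      | zero => rw [map_zero]; exact Submodule.zero_mem _
      | add x y _ _ hx hy => rw [map_add]; exact Submodule.add_mem _ hx hy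
      | smul a x _ hx => rw [map_smul]; exact Submodule.smul_mem _ _ hx
    have htop : LinearMap.range Θ = ⊤ := by
      rw [eq_top_iff]
      intro y _
      have h1 : y = ∑ τ, y τ • (Pi.single τ 1 : {τ : Finset (Fin n) // τ.card = 3} → k) := by
        have := Finset.univ_sum_single y
        conv_lhs => rw [← this]
        refine Finset.sum_congr rfl (fun τ _ => ?_)
        rw [← Pi.single_smul, smul_eq_mul, mul_one]
      rw [h1]
      refine Submodule.sum_mem _ (fun τ _ => Submodule.smul_mem _ _ ?_)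
      obtain ⟨h2, h4⟩ := ph_prod v τ
      rw [← h4]
      exact hrange _ (hN _ h2)
    have h1 := LinearMap.finrank_range_le Θ
    rw [htop, finrank_top, Module.finrank_fintype_fun_eq_card, Module.finrank_fintype_fun_eq_card,
      Fintype.card_prod, Fintype.card_fin, Fintype.card_fin] at h1
    have h2 : Fintype.card {τ : Finset (Fin n) // τ.card = 3} = n.choose 3 := by
      rw [Fintype.card_finset_len, Fintype.card_fin]
    rw [h2] at h1
    have h4 : Module.finrank k GI ≤ 1 + n + Fintype.card (Q n) - deg I := by omega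
    have h5 := Nat.mul_le_mul_left n h4
    omega
  · push Not at hN
    obtain ⟨z, hz, hzN⟩ := hN
    obtain ⟨l, hl, hlN⟩ := Submodule.exists_dual_map_eq_bot_of_notMem hzN inferInstance
    refine ⟨l, fun f hf i => ?_, z, hz, hl⟩
    have h1 : l ((X i - C (v i)) * f) ∈ N.map l := ⟨_, Submodule.subset_span ⟨i, f, hf, rfl⟩, rfl⟩
    rw [hlN] at h1
    exact h1

lemma exists_u (v : Fin n → k) (I : Ideal (MvPolynomial (Fin n) k))
    (l : MvPolynomial (Fin n) k →ₗ[k] k) (hnum : 1 + n + n < deg I) :
    ∃ u ∈ maxI v ^ 2, u ∉ I ∧ ∀ i, l ((X i - C (v i)) * u) = 0 := by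
  by_contra hc
  push Not at hc
  let g : MvPolynomial (Fin n) k →ₗ[k] (k × (Fin n → k) × (Fin n → k)) :=
    (cf v 0).prod ((LinearMap.pi (fun a => cf v (Finsupp.single a 1))).prod
      (LinearMap.pi (fun i => l ∘ₗ LinearMap.mulLeft k (X i - C (v i)))))
  have h1 := fin_of_ker g I (by
    intro f hf
    by_contra hfI
    have h2 : f ∈ maxI v ^ 2 := by
      apply maxI_of
      rw [mem_pow_idealOfVars_iff']
      intro s hs
      rcases degree_zero_one_two s (by omega) with rfl | ⟨a, rfl⟩ | ⟨q, rfl⟩
      · exact congrArg Prod.fst hf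
      · exact congrFun (congrArg (fun x => x.2.1) hf) a
      · rw [quad_degree] at hs; omega
    obtain ⟨i, hi⟩ := hc f h2 hfI
    exact hi (congrFun (congrArg (fun x => x.2.2) hf) i))
  rw [Module.finrank_prod, Module.finrank_prod, Module.finrank_self,
    Module.finrank_fintype_fun_eq_card, Fintype.card_fin] at h1
  omega

end counts

section family

variable {k : Type u} [Field k] {n d : ℕ} (I : Ideal (MvPolynomial (Fin n) k))
  (β : Module.Basis (Fin d) k (MvPolynomial (Fin n) k ⧸ I)) (b : Fin d → MvPolynomial (Fin n) k)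
  (l : MvPolynomial (Fin n) k →ₗ[k] k) (u : MvPolynomial (Fin n) k)

/-- coordinates modulo `I` -/
noncomputable def be : MvPolynomial (Fin n) k →ₗ[k] (Fin d → k) :=
  β.equivFun.toLinearMap ∘ₗ (Ideal.Quotient.mkₐ k I).toLinearMap

lemma be_eq_zero (f : MvPolynomial (Fin n) k) : be I β f = 0 ↔ f ∈ I := by
  change β.equivFun (Ideal.Quotient.mk I f) = 0 ↔ _
  rw [LinearEquiv.map_eq_zero_iff, Ideal.Quotient.eq_zero_iff_mem]

/-- the representative of `f` modulo `I` -/
noncomputable def p0 : MvPolynomial (Fin n) k →ₗ[k] MvPolynomial (Fin n) k :=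
  (Fintype.linearCombination k b) ∘ₗ be I β

lemma p0_apply (f : MvPolynomial (Fin n) k) : p0 I β b f = ∑ j, be I β f j • b j := rfl

/-- the extension of `l|I` by zero on the complement. -/
noncomputable def mu : MvPolynomial (Fin n) k →ₗ[k] k := l ∘ₗ (LinearMap.id - p0 I β b)

lemma mu_apply (f : MvPolynomial (Fin n) k) : mu I β b l f = l (f - p0 I β b f) := rfl

lemma p0_of_mem (f : MvPolynomial (Fin n) k) (hf : f ∈ I) : p0 I β b f = 0 := by
  rw [p0, LinearMap.comp_apply, (be_eq_zero I β f).2 hf, map_zero]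

lemma mu_of_mem (f : MvPolynomial (Fin n) k) (hf : f ∈ I) : mu I β b l f = l f := by
  rw [mu_apply, p0_of_mem I β b f hf, sub_zero]

variable (hb : ∀ j, Ideal.Quotient.mk I (b j) = β j)
include hb

lemma be_b (j : Fin d) : be I β (b j) = Pi.single j 1 := by
  change β.equivFun (Ideal.Quotient.mk I (b j)) = _
  rw [hb]
  funext i
  rw [Module.Basis.equivFun_self, Pi.single_apply]
  by_cases h : j = i
  · subst h; simp
  · rw [if_neg h, if_neg (fun h' => h h'.symm)]

lemma p0_b (j : Fin d) : p0 I β b (b j) = b j := by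
  rw [p0, LinearMap.comp_apply, be_b I β b hb, Fintype.linearCombination_apply_single, one_smul]

lemma sub_p0_mem (f : MvPolynomial (Fin n) k) : f - p0 I β b f ∈ I := by
  rw [← be_eq_zero I β, map_sub, sub_eq_zero, p0_apply, map_sum]
  have h1 : ∀ j, be I β (be I β f j • b j) = Pi.single j (be I β f j) := by
    intro j
    rw [map_smul, be_b I β b hb, ← Pi.single_smul, smul_eq_mul, mul_one]
  rw [Finset.sum_congr rfl (fun j _ => h1 j)]
  exact (Finset.univ_sum_single _).symm

lemma be_p0 (f : MvPolynomial (Fin n) k) : be I β (p0 I β b f) = be I β f := by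
  have h1 := (be_eq_zero I β _).2 (sub_p0_mem I β b hb f)
  rw [map_sub, sub_eq_zero] at h1
  exact h1.symm

lemma p0_p0 (f : MvPolynomial (Fin n) k) : p0 I β b (p0 I β b f) = p0 I β b f := by
  rw [p0, LinearMap.comp_apply, LinearMap.comp_apply]
  congr 1
  exact be_p0 I β b hb f

lemma mu_p0 (f : MvPolynomial (Fin n) k) : mu I β b l (p0 I β b f) = 0 := by
  rw [mu_apply, p0_p0 I β b hb, sub_self, map_zero]

omit hb

section

variable {R : Type u} [CommRing R] [Algebra k R] (t : R)

/-- the normal forms of the family with parameter `t`. -/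
noncomputable def vec (s : Fin n →₀ ℕ) (j : Fin d) : R :=
  algebraMap k R (be I β (monomial s 1) j) +
    t * algebraMap k R (mu I β b l (monomial s 1) * be I β u j)

lemma NF_map (f : MvPolynomial (Fin n) k) (j : Fin d) :
    NF (vec I β b l u t) (MvPolynomial.map (algebraMap k R) f) j =
      algebraMap k R (be I β f j) + t * algebraMap k R (mu I β b l f * be I β u j) := by
  induction f using MvPolynomial.induction_on' with
  | monomial s c =>
    have h1 : (monomial s c : MvPolynomial (Fin n) k) = c • monomial s 1 := by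
      rw [smul_monomial, smul_eq_mul, mul_one]
    rw [map_monomial, NF_monomial, Pi.smul_apply, vec, h1, map_smul, map_smul, Pi.smul_apply,
      smul_eq_mul, smul_eq_mul, smul_eq_mul, map_mul, map_mul, map_mul, map_mul]
    ring
  | add p q hp hq =>
    rw [map_add, map_add, Pi.add_apply, hp, hq, map_add, map_add, Pi.add_apply, add_mul, map_add,
      map_add]
    ring

variable (v : Fin n → k) (h3 : maxI v ^ 3 ≤ I)
  (hl : ∀ f ∈ I, ∀ i, l ((X i - C (v i)) * f) = 0) (hu2 : u ∈ maxI v ^ 2)
  (hlu : ∀ i, l ((X i - C (v i)) * u) = 0)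

include hb h3 hl hu2 hlu

lemma compat : MulCompat (vec I β b l u t) := by
  intro i
  refine ⟨Fintype.linearCombination R (fun j =>
    NF (vec I β b l u t) (MvPolynomial.map (algebraMap k R) (X i * b j))), fun s => ?_⟩
  -- the linear combination attached to an element of `k^d`
  have hlin : ∀ y : MvPolynomial (Fin n) k,
      ∑ j, algebraMap k R (be I β y j) • NF (vec I β b l u t) (MvPolynomial.map (algebraMap k R) (X i * b j)) =
        NF (vec I β b l u t) (MvPolynomial.map (algebraMap k R) (X i * p0 I β b y)) := by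
    intro y
    rw [p0_apply, Finset.mul_sum, map_sum, map_sum]
    refine Finset.sum_congr rfl (fun j _ => ?_)
    rw [← C_mul', mul_left_comm, RingHom.map_mul _ (C (be I β y j)), map_C, C_mul', map_smul]
  have h1 : ∑ j, vec I β b l u t s j • NF (vec I β b l u t) (MvPolynomial.map (algebraMap k R) (X i * b j)) =
      NF (vec I β b l u t) (MvPolynomial.map (algebraMap k R) (X i * p0 I β b (monomial s 1))) +
      (t * algebraMap k R (mu I β b l (monomial s 1))) •
        NF (vec I β b l u t) (MvPolynomial.map (algebraMap k R) (X i * p0 I β b u)) := by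
    rw [← hlin, ← hlin, Finset.smul_sum, ← Finset.sum_add_distrib]
    refine Finset.sum_congr rfl (fun j _ => ?_)
    rw [vec, add_smul, smul_smul, (algebraMap k R).map_mul, mul_assoc]
  rw [Fintype.linearCombination_apply, h1]
  -- the second term
  have hxu : X i * p0 I β b u = (X i - C (v i)) * p0 I β b u + v i • p0 I β b u := by
    rw [← C_mul']; ring
  have hmem : (X i - C (v i)) * p0 I β b u ∈ I := by
    have h4 : (X i - C (v i)) * p0 I β b u = (X i - C (v i)) * u - (X i - C (v i)) * (u - p0 I β b u) := by ring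
    rw [h4]
    refine I.sub_mem (h3 ?_) (I.mul_mem_left _ (sub_p0_mem I β b hb u))
    rw [pow_succ' (maxI v) 2]
    exact Ideal.mul_mem_mul (mem_maxI v i) hu2
  have hlmem : l ((X i - C (v i)) * p0 I β b u) = 0 := by
    have h4 : (X i - C (v i)) * p0 I β b u = (X i - C (v i)) * u - (X i - C (v i)) * (u - p0 I β b u) := by ring
    rw [h4, map_sub, hlu, hl _ (sub_p0_mem I β b hb u), sub_zero]
  -- the first term
  set g := (monomial s 1 : MvPolynomial (Fin n) k) - p0 I β b (monomial s 1) with hg
  have hgI : g ∈ I := sub_p0_mem I β b hb _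
  have hxg : X i * p0 I β b (monomial s 1) = X i * monomial s 1 - X i * g := by rw [hg]; ring
  have hlg : l (X i * g) = v i * l g := by
    have h4 : X i * g = (X i - C (v i)) * g + v i • g := by rw [← C_mul']; ring
    rw [h4, map_add, hl g hgI, zero_add, map_smul, smul_eq_mul]
  have hmug : mu I β b l (monomial s 1) = l g := rfl
  funext j
  have hXs : (X i * monomial s 1 : MvPolynomial (Fin n) k) = monomial (s + Finsupp.single i 1) 1 := by
    rw [X, monomial_mul, mul_one, add_comm]
  rw [Pi.add_apply, Pi.smul_apply, hxg, hxu, hXs, map_sub, map_sub, Pi.sub_apply, NF_map, NF_map, NF_map]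
  rw [(be_eq_zero I β _).2 (I.mul_mem_left (X i) hgI), mu_of_mem I β b l _ (I.mul_mem_left (X i) hgI), hlg]
  rw [map_add (be I β), (be_eq_zero I β _).2 hmem, zero_add, map_add (mu I β b l),
    mu_of_mem I β b l _ hmem, hlmem, map_smul, map_smul, be_p0 I β b hb, mu_p0 I β b l hb, hmug, vec, ← hmug]
  simp only [Pi.zero_apply, Pi.smul_apply, smul_eq_mul, map_mul, map_zero, mul_zero, zero_mul, add_zero,
    zero_add]
  ring

lemma NF_b (j : Fin d) : NF (vec I β b l u t) (MvPolynomial.map (algebraMap k R) (b j)) = Pi.single j 1 := by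
  funext i
  have h1 : mu I β b l (b j) = 0 := by
    rw [mu_apply, p0_b I β b hb, sub_self, map_zero]
  rw [NF_map, be_b I β b hb, h1, zero_mul, map_zero, mul_zero, add_zero]
  by_cases h : i = j
  · subst h; rw [Pi.single_eq_same, Pi.single_eq_same, map_one]
  · rw [Pi.single_eq_of_ne h, Pi.single_eq_of_ne h, map_zero]

lemma sys : NFSys (fun _ : Fin n => (0 : ℤ)) (fun _ => 0) (vec I β b l u t)
    (fun j => MvPolynomial.map (algebraMap k R) (b j)) where
  compat := compat I β b l u hb t v h3 hl hu2 hlu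
  base := NF_b I β b l u hb t v h3 hl hu2 hlu
  homog := by
    intro s j _
    simp [Finsupp.weight_apply]
  basedeg := by
    intro j s _
    simp [Finsupp.weight_apply]

lemma flat : FiniteFlat (nfIdeal (vec I β b l u t) (compat I β b l u hb t v h3 hl hu2 hlu)) := by
  have hsurj : Function.Surjective (NF (vec I β b l u t) : MvPolynomial (Fin n) R →ₗ[R] (Fin d → R)) := by
    intro y
    refine ⟨∑ j, y j • MvPolynomial.map (algebraMap k R) (b j), ?_⟩
    rw [map_sum]
    have h1 : ∀ j, NF (vec I β b l u t) (y j • MvPolynomial.map (algebraMap k R) (b j)) = Pi.single j (y j) := by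
      intro j
      rw [map_smul, NF_b I β b l u hb t v h3 hl hu2 hlu, ← Pi.single_smul, smul_eq_mul, mul_one]
    rw [Finset.sum_congr rfl (fun j _ => h1 j)]
    exact Finset.univ_sum_single y
  have e1 := LinearMap.quotKerEquivOfSurjective _ hsurj
  have h2 : LinearMap.ker (NF (vec I β b l u t)) =
    (nfIdeal (vec I β b l u t) (compat I β b l u hb t v h3 hl hu2 hlu)).restrictScalars R := rfl
  rw [h2] at e1
  have e2 := (Submodule.Quotient.restrictScalarsEquiv R
    (nfIdeal (vec I β b l u t) (compat I β b l u hb t v h3 hl hu2 hlu))).symm.trans e1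
  exact ⟨Module.Finite.equiv e2.symm, Module.Projective.of_equiv e2.symm⟩

end

variable (v : Fin n → k) (h3 : maxI v ^ 3 ≤ I)
  (hl : ∀ f ∈ I, ∀ i, l ((X i - C (v i)) * f) = 0) (hu2 : u ∈ maxI v ^ 2)
  (hlu : ∀ i, l ((X i - C (v i)) * u) = 0)

lemma mem_fam (a : k) (hc : MulCompat (vec I β b l u a)) (f : MvPolynomial (Fin n) k) :
    f ∈ nfIdeal (vec I β b l u a) hc ↔ ∀ j, be I β f j + a * (mu I β b l f * be I β u j) = 0 := by
  rw [mem_nfIdeal]
  have h1 : MvPolynomial.map (algebraMap k k) f = f := MvPolynomial.map_id f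
  constructor
  · intro h j
    have h2 := NF_map I β b l u a f j
    rw [h1, h] at h2
    exact h2.symm
  · intro h
    funext j
    have h2 := NF_map I β b l u a f j
    rw [h1] at h2
    rw [h2]
    exact h j

include hb h3 hl hu2 hlu

lemma exists_fam : ∃ J : Ideal (MvPolynomial (Fin n) (Polynomial k)), FiniteFlat J ∧
    ∀ (a : k) (f : MvPolynomial (Fin n) k), f ∈ baseChange (Polynomial.evalRingHom a) J ↔
      ∀ j, be I β f j + a * (mu I β b l f * be I β u j) = 0 := by
  have s1 := sys I β b l u hb (Polynomial.X : Polynomial k) v h3 hl hu2 hlu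
  refine ⟨nfIdeal (vec I β b l u (Polynomial.X : Polynomial k)) s1.compat,
    flat I β b l u hb _ v h3 hl hu2 hlu, fun a f => ?_⟩
  have s2 := sys I β b l u hb a v h3 hl hu2 hlu
  have h1 : baseChange (Polynomial.evalRingHom a)
      (nfIdeal (vec I β b l u (Polynomial.X : Polynomial k)) s1.compat) =
      nfIdeal (vec I β b l u a) s2.compat := by
    refine map_nfIdeal (Polynomial.evalRingHom a) s1 (vec I β b l u a)
      (fun j => MvPolynomial.map (algebraMap k k) (b j)) s2 ?_ ?_
    · intro s j
      rw [vec, vec, map_add, map_mul]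
      congr 1
      · exact Polynomial.eval_C
      · congr 1
        · exact Polynomial.eval_X
        · exact Polynomial.eval_C
    · intro j
      rw [MvPolynomial.map_map]
      have h2 : (Polynomial.evalRingHom a).comp (algebraMap k (Polynomial k)) = algebraMap k k := by
        ext c
        exact Polynomial.eval_C
      rw [h2]
  rw [h1, mem_fam]

end family

section main

variable {k : Type u} [Field k] {n : ℕ}

/-- Every algebra with Hilbert function `(1,n,r)`, `r` large, deforms out of the locus. -/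
theorem deform (v : Fin n → k) (d : ℕ) (I : Ideal (MvPolynomial (Fin n) k)) (h3 : maxI v ^ 3 ≤ I)
    (hdeg : deg I = d) (hnum : n * (1 + n + Fintype.card (Q n) - d) < n.choose 3)
    (hnum' : 1 + n + n < d) :
    ∃ J : Ideal (MvPolynomial (Fin n) (Polynomial k)), FiniteFlat J ∧
      baseChange (Polynomial.evalRingHom 0) J = I ∧
      ∀ a : k, a ≠ 0 → maxI v ^ 4 ≤ baseChange (Polynomial.evalRingHom a) J ∧
        ¬ maxI v ^ 3 ≤ baseChange (Polynomial.evalRingHom a) J := by
  obtain ⟨l, hl, z, hz, hlz⟩ := exists_lambda v I h3 (by rw [hdeg]; exact hnum)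
  obtain ⟨u, hu2, huI, hlu⟩ := exists_u v I l (by rw [hdeg]; exact hnum')
  have hfin : Module.Finite k (MvPolynomial (Fin n) k ⧸ I) := by
    apply Module.finite_of_finrank_pos
    change 0 < deg I
    omega
  subst hdeg
  let β : Module.Basis (Fin (deg I)) k (MvPolynomial (Fin n) k ⧸ I) := Module.finBasis k _
  choose b hb using fun j => Ideal.Quotient.mk_surjective (β j)
  obtain ⟨J, hflat, hJ⟩ := exists_fam I β b l u hb v h3 hl hu2 hlu
  refine ⟨J, hflat, ?_, ?_⟩
  · ext f
    rw [hJ, ← be_eq_zero I β]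
    constructor
    · intro h
      funext j
      have := h j
      rw [zero_mul, add_zero] at this
      exact this
    · intro h j
      rw [h, zero_mul, Pi.zero_apply, add_zero]
  · intro a ha
    refine ⟨?_, ?_⟩
    · intro g hg
      have h4 : maxI v ^ 4 = maxI v * maxI v ^ 3 := pow_succ' _ _
      rw [h4] at hg
      have h6 : ∀ x ∈ maxI v, ∀ y ∈ I, l (x * y) = 0 := by
        intro x hx
        rw [maxI] at hx
        induction hx using Submodule.span_induction with
        | mem x hx =>
          obtain ⟨i, rfl⟩ := hx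
          intro y hy
          exact hl y hy i
        | zero => intro y _; rw [zero_mul, map_zero]
        | add p q _ _ hp hq => intro y hy; rw [add_mul, map_add, hp y hy, hq y hy, add_zero]
        | smul c x _ hx =>
          intro y hy
          rw [smul_eq_mul, mul_comm c x, mul_assoc]
          exact hx _ (I.mul_mem_left _ hy)
      have h5 : g ∈ I ∧ l g = 0 := by
        have hg' : g ∈ maxI v * I := Ideal.mul_mono_right h3 hg
        refine ⟨Ideal.mul_le_right hg', ?_⟩
        refine Submodule.mul_induction_on hg' (fun x hx y hy => h6 x hx y hy) (fun p q hp hq => ?_)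
        rw [map_add, hp, hq, add_zero]
      obtain ⟨h6, h7⟩ := h5
      rw [hJ]
      intro j
      rw [(be_eq_zero I β g).2 h6, mu_of_mem I β b l g h6, h7, zero_mul, mul_zero, Pi.zero_apply, add_zero]
    · intro hle
      have h1 := (hJ a z).1 (hle hz)
      apply huI
      rw [← be_eq_zero I β]
      funext j
      have h2 := h1 j
      rw [(be_eq_zero I β z).2 (h3 hz), mu_of_mem I β b l z (h3 hz), Pi.zero_apply, zero_add] at h2
      rcases mul_eq_zero.1 h2 with h4 | h4
      · exact absurd h4 ha
      · rcases mul_eq_zero.1 h4 with h5 | h5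
        · exact absurd h5 hlz
        · exact h5

lemma eval_maxI (v : Fin n → k) (f : MvPolynomial (Fin n) k) (hf : f ∈ maxI v) : eval v f = 0 := by
  rw [maxI] at hf
  induction hf using Submodule.span_induction with
  | mem x hx => obtain ⟨i, rfl⟩ := hx; simp
  | zero => exact map_zero _
  | add p q _ _ hp hq => rw [map_add, hp, hq, add_zero]
  | smul c x _ hx => rw [smul_eq_mul, map_mul, hx, mul_zero]

end main

/-- **`VC_{18,145}` is neither smoothable nor a component.** -/
theorem result (k : Type u) [Field k] [IsAlgClosed k] :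
    (∃ I ∈ VC k 18 145, ¬ Smoothable I) ∧
    ∀ I ∈ VC k 18 145, ∃ J : Ideal (MvPolynomial (Fin 18) (Polynomial k)), FiniteFlat J ∧
      baseChange (Polynomial.evalRingHom 0) J = I ∧
      ∀ a : k, a ≠ 0 → baseChange (Polynomial.evalRingHom a) J ∉ VC k 18 145 := by
  have hQ : Fintype.card (Q 18) = 171 := by decide +kernel
  constructor
  · have he : Nonempty (Fin 126 ↪ Q 18) := by
      apply Function.Embedding.nonempty_of_card_le
      rw [Fintype.card_fin, hQ]
      norm_num
    obtain ⟨e⟩ := he
    obtain ⟨I, h1, h2, h3, h4⟩ := exists_nonsmoothable (k := k) 18 126 e (by rw [hQ]; norm_num)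
    refine ⟨I, ⟨2, 0, by decide, by decide, ?_, ?_, h3⟩, h4⟩
    · rw [maxI_zero]; exact h1
    · rw [maxI_zero]; exact h2
  · rintro I ⟨s, v, hs1, hs2, h1, h2, h3⟩
    have key : ∀ s : ℕ, (18 + s - 1).choose 18 < 145 → 145 ≤ (18 + s).choose 18 → s = 2 := by
      intro s hs1 hs2
      rcases Nat.lt_or_ge s 2 with h | h
      · exfalso
        have h4 : (18 + s).choose 18 ≤ (19).choose 18 := Nat.choose_le_choose 18 (by omega)
        have h5 : (19).choose 18 = 19 := by decide
        omega
      · rcases Nat.lt_or_ge 2 s with h' | h'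
        · exfalso
          have h4 : (20).choose 18 ≤ (18 + s - 1).choose 18 := Nat.choose_le_choose 18 (by omega)
          have h5 : (20).choose 18 = 190 := by decide
          omega
        · omega
    obtain rfl := key s hs1 hs2
    obtain ⟨J, hJ1, hJ2, hJ3⟩ := deform v 145 I h1 h3 (by rw [hQ]; decide) (by norm_num)
    refine ⟨J, hJ1, hJ2, fun a ha hVC => ?_⟩
    obtain ⟨h4, h5⟩ := hJ3 a ha
    obtain ⟨s, w, hs1, hs2, h6, h7, -⟩ := hVC
    obtain rfl := key s hs1 hs2
    have hvw : v = w := by
      funext i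
      have h8 : (X i - C (v i) : MvPolynomial (Fin 18) k) ^ 4 ∈ maxI w := by
        have h9 := h7 (h4 (Ideal.pow_mem_pow (mem_maxI v i) 4))
        exact Ideal.pow_le_self two_ne_zero h9
      have h9 := eval_maxI w _ h8
      rw [map_pow, map_sub, eval_X, eval_C] at h9
      have h10 := pow_eq_zero_iff (n := 4) (by norm_num) |>.1 h9
      exact (sub_eq_zero.1 h10).symm
    rw [hvw] at h5
    exact h5 h6

end Pool.Agent.Results.MP_5fb40f_ag.Neither
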